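import Pool.Agent.H7.HD.Targets11
import Pool.Agent.H7.HD9.All9
import Pool.Agent.H7.HD.All6

/-!
# Module LMM of MP_e37c09_lc: `(Tg, gg)` is minimal at almost all `ν`
-/

open Ordinal Cardinal Order Set
open scoped ZFSet

universe u

namespace Pool.Agent.H54.HDA.LMM

open _root_.HD

section
variable {en : Ordinal.{u} → ZFSet.{u}} {Q : Ordinal.{u} → Ordinal.{u} → Prop}
  {t : Ordinal.{u} → Ordinal.{u} → Ordinal.{u}}

/-- the value of `Q` -/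
private def QQ (en : Ordinal.{u} → ZFSet.{u}) (Q : Ordinal.{u} → Ordinal.{u} → Prop)
    (t : Ordinal.{u} → Ordinal.{u} → Ordinal.{u}) (z j a ξ : Ordinal.{u}) : Prop :=
  Q (af en z j) (t a ξ)

/-- `a` is the least ordinal below `ξ` which is not in the set number `j` -/
private def AA (en : Ordinal.{u} → ZFSet.{u}) (Q : Ordinal.{u} → Ordinal.{u} → Prop)
    (t : Ordinal.{u} → Ordinal.{u} → Ordinal.{u}) (z j ξ a : Ordinal.{u}) : Prop :=
  a < ξ ∧ ¬ QQ en Q t z j a ξ ∧ ∀ a' < a, QQ en Q t z j a' ξ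

/-- `b` is an upper bound -/
private def Bd (en : Ordinal.{u} → ZFSet.{u}) (Q : Ordinal.{u} → Ordinal.{u} → Prop)
    (t : Ordinal.{u} → Ordinal.{u} → Ordinal.{u}) (z i ξ b : Ordinal.{u}) : Prop :=
  ∀ j < i, ∀ a, AA en Q t z j ξ a → a ≤ b

private theorem do_QQ (hen : EN en) (hQ : DR Q) (ht : Prf t) (z : Ordinal.{u}) :
    DO fun w => QQ en Q t z (w 0) (w 1) (w 2) := by
  have h1 : DO fun w : ℕ → Ordinal.{u} => ∃ x, ∃ y, x = af en z (w 0) ∧ y = t (w 1) (w 2) ∧ Q x y := by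
    refine DO.ex (R := fun x w => ∃ y, x = af en z (w 0) ∧ y = t (w 1) (w 2) ∧ Q x y) ?_
    refine DO.ex (R := fun y w => w 0 = af en z (w 1) ∧ y = t (w 2) (w 3) ∧ Q (w 0) y) ?_
    refine DO.and ?_ (DO.and ?_ (DO.s2 hQ 1 0))
    · have h2 := (All.fdd en hen).1
      have h3 : DO fun w : ℕ → Ordinal.{u} => w 1 = af en z (w 0) :=
        DO.sub (R := fun c w => w 1 = af en c (w 0)) z
          ((h2.ren fun n => if n = 0 then 1 else if n = 1 then 0 else 2).congr fun w => by simp)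
      exact (h3.ren fun n => if n = 0 then 2 else 1).congr fun w => by simp
    · exact (ht.dfn.ren fun n => if n = 0 then 3 else if n = 1 then 4 else 0).congr
        fun w => by simp
  refine h1.congr fun w => ?_
  constructor
  · intro h
    exact ⟨_, _, rfl, rfl, h⟩
  · rintro ⟨x, y, rfl, rfl, h⟩
    exact h

private theorem do_AA (hen : EN en) (hQ : DR Q) (ht : Prf t) (z : Ordinal.{u}) :
    DO fun w => AA en Q t z (w 0) (w 1) (w 2) := by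
  have h1 := do_QQ hen hQ ht z
  refine (DO.lt 2 1).and (((h1.ren fun n => if n = 0 then 0 else if n = 1 then 2 else 1).congr
    fun w => by simp).not.and ?_)
  refine DO.allLt (R := fun a' w => QQ en Q t z (w 0) a' (w 1)) 2 ?_
  exact (h1.ren fun n => if n = 0 then 1 else if n = 1 then 0 else 2).congr fun w => by simp

private theorem do_Bd (hen : EN en) (hQ : DR Q) (ht : Prf t) (z i : Ordinal.{u}) :
    DO fun w => Bd en Q t z i (w 0) (w 1) := by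
  refine DO.allLtc (R := fun j w => ∀ a, AA en Q t z j (w 0) a → a ≤ w 1) i ?_
  refine DO.all (R := fun a w => AA en Q t z (w 0) (w 1) a → a ≤ w 2) ?_
  refine DO.imp ?_ (DO.le 0 3)
  exact ((do_AA hen hQ ht z).ren fun n => if n = 0 then 1 else if n = 1 then 2 else 0).congr
    fun w => by simp

private theorem ds_zs (hen : EN en) (hQ : DR Q) (ht : Prf t) (z i : Ordinal.{u}) :
    DS {x | ∃ ξ a, x = t a ξ ∧ ¬ (Bd en Q t z i ξ a ∧ ∀ b < a, ¬ Bd en Q t z i ξ b)} := by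
  have h1 := do_Bd hen hQ ht z i
  refine DO.ex (R := fun ξ w => ∃ a, w 0 = t a ξ ∧
    ¬ (Bd en Q t z i ξ a ∧ ∀ b < a, ¬ Bd en Q t z i ξ b)) ?_
  refine DO.ex (R := fun a w => w 1 = t a (w 0) ∧
    ¬ (Bd en Q t z i (w 0) a ∧ ∀ b < a, ¬ Bd en Q t z i (w 0) b)) ?_
  refine DO.and ?_ (DO.not (DO.and (DO.s2 h1 1 0) ?_))
  · exact (ht.dfn.ren fun n => if n = 0 then 0 else if n = 1 then 1 else 2).congr
      fun w => by simp
  · refine DO.allLt (R := fun b w => ¬ Bd en Q t z i (w 1) b) 0 ?_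
    exact (DO.s2 h1 2 0).not

private theorem AA.unique {z j ξ a b : Ordinal.{u}} (h : AA en Q t z j ξ a)
    (h' : AA en Q t z j ξ b) : a = b := by
  rcases lt_trichotomy a b with h1 | h1 | h1
  · exact absurd (h'.2.2 a h1) h.2.1
  · exact h1
  · exact absurd (h.2.2 b h1) h'.2.1

private theorem bounded (hen : EN en) (hQ : DR Q) (ht : Prf t) (z i ξ : Ordinal.{u})
    (hξ : RegHOD ξ) (hi : i < ξ) : ∃ b < ξ, Bd en Q t z i ξ b := by
  by_contra hn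
  push Not at hn
  apply hξ.2
  have h0 : 0 < ξ := bot_le.trans_lt hi
  have hDR : DR fun j c => AA en Q t z j ξ c ∨ ((¬ ∃ a, AA en Q t z j ξ a) ∧ c = 0) := by
    have h1 := do_AA hen hQ ht z
    refine DO.sub (R := fun x w => AA en Q t z (w 0) x (w 1) ∨
      ((¬ ∃ a, AA en Q t z (w 0) x a) ∧ w 1 = 0)) ξ ?_
    refine DO.or ?_ (DO.and (DO.not ?_) (DO.eqc 2 0))
    · exact (h1.ren fun n => if n = 0 then 1 else if n = 1 then 0 else 2).congr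
        fun w => by simp
    · refine DO.ex (R := fun a w => AA en Q t z (w 1) (w 0) a) ?_
      exact (h1.ren fun n => if n = 0 then 2 else if n = 1 then 1 else 0).congr
        fun w => by simp
  have huni : ∀ j c c' : Ordinal.{u},
      (AA en Q t z j ξ c ∨ ((¬ ∃ a, AA en Q t z j ξ a) ∧ c = 0)) →
      (AA en Q t z j ξ c' ∨ ((¬ ∃ a, AA en Q t z j ξ a) ∧ c' = 0)) → c = c' := by
    rintro j c c' (h | h) (h' | h')
    · exact h.unique h'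
    · exact absurd ⟨c, h⟩ h'.1
    · exact absurd ⟨c', h'⟩ h.1
    · rw [h.2, h'.2]
  refine ⟨i, hi, rs i ξ _, hod_rs hDR i ξ, ⟨fun p hp => ?_, fun x hx => ?_⟩, fun b hb => ?_⟩
  · obtain ⟨a, ha, b, hb, -, rfl⟩ := mem_rs.1 hp
    exact ZFSet.pair_mem_prod.2 ⟨toZFSet_mem_toZFSet_iff.2 ha, toZFSet_mem_toZFSet_iff.2 hb⟩
  · obtain ⟨j, hj, rfl⟩ := mem_toZFSet_iff.1 hx
    obtain ⟨c, hc, hR⟩ : ∃ c < ξ,
        (AA en Q t z j ξ c ∨ ((¬ ∃ a, AA en Q t z j ξ a) ∧ c = 0)) := by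
      by_cases hex : ∃ a, AA en Q t z j ξ a
      · obtain ⟨a, ha⟩ := hex
        exact ⟨a, ha.1, Or.inl ha⟩
      · exact ⟨0, h0, Or.inr ⟨hex, rfl⟩⟩
    refine ⟨c.toZFSet, pair_mem_rs.2 ⟨hj, hc, hR⟩, fun y hy => ?_⟩
    obtain ⟨a', -, b', -, hR', he⟩ := mem_rs.1 hy
    obtain ⟨he1, rfl⟩ := ZFSet.pair_injective he
    have := toZFSet_injective he1
    subst this
    rw [huni _ _ _ hR' hR]
  · have h1 := hn b hb
    unfold Bd at h1
    push Not at h1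
    obtain ⟨j, hj, a, ha, hba⟩ := h1
    exact ⟨j, hj, a, hba.le, pair_mem_rs.2 ⟨hj, ha.1, Or.inl ha⟩⟩

end

/-- the main step -/
private theorem core {en : Ordinal.{u} → ZFSet.{u}} (hen : EN en) {K : Cardinal.{u}}
    {Q : Ordinal.{u} → Ordinal.{u} → Prop} {f : Ordinal.{u} → Ordinal.{u}}
    {t : Ordinal.{u} → Ordinal.{u} → Ordinal.{u}} {X : Set Ordinal.{u}} (hK0 : ℵ₀ < K)
    (ht : Prf t) (hQ : DR Q) (hX : ∀ ξ ∈ X, RegHOD ξ) {ν : Ordinal.{u}} (hν : ν ≤ K.ord)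
    (hcof : ℵ₀ < ν.cof)
    (hg : ∀ γ ∈ Tg K X Q f t, γ < ν → gg K X Q f t γ < ν)
    (htt : ∀ a < ν, ∀ b < ν, t a b < ν)
    (hcov : ∀ (T : Set Ordinal.{u}) (g : Ordinal.{u} → Ordinal.{u}), Pos om ν T →
      (∀ γ ∈ T, γ < ν → g γ < γ) →
        ∃ z, ∃ i < ν, Pos om ν {γ | γ ∈ T ∧ ∃ j < i, af en z j = f (g γ)})
    (hvq : ∀ Y : Set Ordinal.{u}, DS Y → ∃ ζ < ν, ∀ a < ν, (Q (f ζ) a ↔ a ∈ Y)) :
    LM en t X ν (Tg K X Q f t) (gg K X Q f t) := by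
  have hlim : IsSuccLimit ν := Ordinal.one_lt_cof_iff.1 (Cardinal.one_lt_aleph0.trans hcof)
  have hmem : ∀ γ ∈ Tg K X Q f t, γ < gg K X Q f t γ ∧ gg K X Q f t γ < K.ord ∧
      gg K X Q f t γ ∈ X ∧ Gdd Q f t γ (gg K X Q f t γ) := fun γ hγ =>
    csInf_mem (s := {ξ | γ < ξ ∧ ξ < K.ord ∧ ξ ∈ X ∧ Gdd Q f t γ ξ}) hγ
  refine ⟨⟨fun γ hγ hγν => ⟨(hmem γ hγ).1, hg γ hγ hγν, (hmem γ hγ).2.2.1⟩, fun z hP => ?_⟩,
    fun T' g' hLN hB => ?_⟩
  · -- good for all definable sets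
    have hds : DS (E en z) := by
      have h1 := (All.ea en hen).1
      exact DO.sub (R := fun c w => w 0 ∈ E en c) z (DO.s2 (X := fun a b => a ∈ E en b) h1 1 0)
    obtain ⟨ζ, hζ, hζQ⟩ := hvq _ hds
    refine All.vb om ν (succ ζ) hlim (hlim.succ_lt hζ) (hP.mono ?_)
    rintro γ hγ ⟨hγT, h1, a, ha, h2⟩ -
    by_contra hle
    rw [mem_Iio, not_lt] at hle
    have hζγ : ζ < γ := (lt_succ ζ).trans_le hle
    obtain ⟨h3, -, -, h5⟩ := hmem γ hγT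
    have h4 := hg γ hγT hγ
    have h6 := h5 ζ hζγ (fun a ha => (hζQ _ (htt _ (ha.trans hγ) _ h4)).2 (h1 a ha)) a ha
    exact h2 ((hζQ _ (htt _ (ha.trans h4) _ h4)).1 h6)
  · -- minimality
    classical
    have hbad : ∀ γ, γ ∈ T' ∧ (γ ∉ Tg K X Q f t ∨ g' γ < gg K X Q f t γ) → γ < ν →
        ¬ Gdd Q f t γ (g' γ) := by
      rintro γ ⟨hγ, h⟩ hγν hG
      obtain ⟨h1, h2, h3⟩ := hLN.lt γ hγ hγν
      have h4 : g' γ ∈ {ξ | γ < ξ ∧ ξ < K.ord ∧ ξ ∈ X ∧ Gdd Q f t γ ξ} :=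
        ⟨h1, h2.trans_le hν, h3, hG⟩
      rcases h with h | h
      · exact h ⟨_, h4⟩
      · exact absurd (csInf_le' h4) (not_le.2 h)
    have hex : ∀ γ, ∃ ζ, γ ∈ T' ∧ (γ ∉ Tg K X Q f t ∨ g' γ < gg K X Q f t γ) → γ < ν →
        ζ < γ ∧ (∀ a < γ, Q (f ζ) (t a (g' γ))) ∧ ∃ a < g' γ, ¬ Q (f ζ) (t a (g' γ)) := by
      intro γ
      by_cases h : (γ ∈ T' ∧ (γ ∉ Tg K X Q f t ∨ g' γ < gg K X Q f t γ)) ∧ γ < ν
      · have h1 := hbad γ h.1 h.2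
        unfold Gdd at h1
        push Not at h1
        obtain ⟨ζ, h2, h3, a, h4, h5⟩ := h1
        exact ⟨ζ, fun _ _ => ⟨h2, h3, a, h4, h5⟩⟩
      · exact ⟨0, fun h1 h2 => absurd ⟨h1, h2⟩ h⟩
    choose ζ hζ using hex
    obtain ⟨z, i, hi, hB1⟩ := hcov _ ζ hB fun γ hγ hγν => (hζ γ hγ hγν).1
    obtain ⟨zs, hzs⟩ := (All.ea en hen).2.2.1 _ (ds_zs hen hQ ht z i) K.ord
    have hB2 := pos_diff All.va hcof hB1 (All.vb om ν (succ i) hlim (hlim.succ_lt hi))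
    refine hLN.gd zs (hB2.mono ?_)
    rintro γ hγ ⟨⟨hγB, j, hj, he⟩, hγi⟩ -
    rw [mem_Iio, not_lt] at hγi
    have hiγ : i < γ := (lt_succ i).trans_le hγi
    obtain ⟨h1, h2, h3⟩ := hLN.lt γ hγB.1 hγ
    obtain ⟨-, h5, a0, h6, h7⟩ := hζ γ hγB hγ
    rw [← he] at h5 h7
    have hgK : g' γ < K.ord := h2.trans_le hν
    have htK : ∀ a < g' γ, t a (g' γ) < K.ord := fun a ha =>
      ht.lt K hK0.le a (ha.trans hgK) _ hgK
    -- the least element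
    obtain ⟨a1, ha1⟩ : ∃ a1, AA en Q t z j (g' γ) a1 := by
      obtain ⟨m, hm⟩ : ∃ m, m = sInf {a | ¬ Q (af en z j) (t a (g' γ))} := ⟨_, rfl⟩
      have h8 : ¬ Q (af en z j) (t m (g' γ)) := by
        rw [hm]
        exact csInf_mem (s := {a | ¬ Q (af en z j) (t a (g' γ))}) ⟨a0, h7⟩
      refine ⟨m, lt_of_le_of_lt ?_ h6, h8, fun a ha => ?_⟩
      · rw [hm]
        exact csInf_le' h7
      · by_contra h9
        rw [hm] at ha
        exact absurd (csInf_le' (s := {a | ¬ Q (af en z j) (t a (g' γ))}) h9) (not_le.2 ha)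
    have hγa : γ ≤ a1 := by
      by_contra hlt
      rw [not_le] at hlt
      exact ha1.2.1 (h5 a1 hlt)
    obtain ⟨b0, hb0, hb1⟩ := bounded hen hQ ht z i (g' γ) (hX _ h3) (hiγ.trans h1)
    obtain ⟨G, hG⟩ : ∃ G, G = sInf {b | Bd en Q t z i (g' γ) b} := ⟨_, rfl⟩
    have hG1 : Bd en Q t z i (g' γ) G := by
      rw [hG]
      exact csInf_mem (s := {b | Bd en Q t z i (g' γ) b}) ⟨b0, hb1⟩
    have hG2 : ∀ b < G, ¬ Bd en Q t z i (g' γ) b := by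
      intro b hb h
      rw [hG] at hb
      exact absurd (csInf_le' (s := {b | Bd en Q t z i (g' γ) b}) h) (not_le.2 hb)
    have hGlt : G < g' γ := by
      refine lt_of_le_of_lt ?_ hb0
      rw [hG]
      exact csInf_le' hb1
    have hγG : γ ≤ G := hγa.trans (hG1 j hj a1 ha1)
    refine ⟨hγB.1, fun a ha => ?_, G, hGlt, fun h => ?_⟩
    · rw [hzs]
      refine ⟨⟨g' γ, a, rfl, fun h => ?_⟩, htK a (ha.trans h1)⟩
      exact hG2 a (ha.trans_le hγG) h.1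
    · rw [hzs] at h
      obtain ⟨⟨ξ, a, h8, h9⟩, -⟩ := h
      obtain ⟨rfl, rfl⟩ := ht.inj _ _ _ _ h8
      exact h9 ⟨hG1, hG2⟩

theorem X (hCOV : T_COV.{u}) (hVQ : T_VQ.{u}) : T_LMM.{u} := by
  classical
  intro en hen K lam Q f t X hK hK0 hVF ht hEQ hX
  obtain ⟨C1, hC1, hC1'⟩ := hCOV en hen K lam hK hK0 hEQ.lt f hEQ.sj.lt
  obtain ⟨C2, hC2, hC2'⟩ := hVQ K lam Q f hK hK0 hVF hEQ
  have hC3 := All.cb K hK hK0 t (ht.lt K hK0.le)
  have hgK : ∀ x < K.ord, (if x ∈ Tg K X Q f t then gg K X Q f t x else 0) < K.ord := by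
    intro x hx
    split_ifs with h
    · exact (csInf_mem (s := {ξ | x < ξ ∧ ξ < K.ord ∧ ξ ∈ X ∧ Gdd Q f t x ξ}) h).2.1
    · exact bot_le.trans_lt hx
  have hC4 := All.ve K hK hK0 _ hgK
  have hKc : ℵ₀ < K.ord.cof := by rw [hK.cof_ord]; exact hK0
  refine ⟨_, All.ci _ _ _ hKc hC1 (All.ci _ _ _ hKc hC2 (All.ci _ _ _ hKc hC3 hC4)),
    fun ν hν hC hNE => ?_⟩
  by_cases hνK : ν = K.ord
  · refine core hen hK0 ht hEQ.dr hX hν hNE.1 (fun γ hγ hγν => ?_) ?_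
      (hC1' ν hν (Or.inr hνK) hNE) fun Y hY => ?_
    · rw [hνK]
      exact (csInf_mem (s := {ξ | γ < ξ ∧ ξ < K.ord ∧ ξ ∈ X ∧ Gdd Q f t γ ξ}) hγ).2.1
    · rw [hνK]
      exact ht.lt K hK0.le
    · obtain ⟨β, hβ, h1⟩ := hEQ.enu Y hY
      obtain ⟨ζ, hζ, rfl⟩ := hEQ.sj.onto β hβ
      rw [hνK]
      exact ⟨ζ, hζ, h1⟩
  · have hlt : ν < K.ord := lt_of_le_of_ne hν hνK
    obtain ⟨g1, g2, g3, g4⟩ := hC.resolve_right hνK
    refine core hen hK0 ht hEQ.dr hX hν hNE.1 (fun γ hγ hγν => ?_) (fun a ha b hb => ?_)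
      (hC1' ν hν (Or.inl g1) hNE) (hC2' ν g2 hlt)
    · have := g4.2 γ hγν
      rwa [if_pos hγ] at this
    · exact g3.2 a ha b hb

end Pool.Agent.H54.HDA.LMM
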